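import Mathlib

set_option autoImplicit false

namespace Pool.Agent.H109R2.TL

open TopologicalSpace

/-- the topology on a complete lattice generated by complements of principal up-sets -/
def lowTop (M : Type) [CompleteLattice M] : TopologicalSpace M :=
  TopologicalSpace.generateFrom {S | ∃ b : M, S = {x | ¬ b ≤ x}}

theorem exists_hom (M : Type) [CompleteLattice M]
    (hW : ∀ d e : M, ¬ d ≤ e → ∃ m : M, ¬ d ≤ m ∧ ∀ F : Set M, F.Finite → (∀ c ∈ F, ¬ c ≤ m) →
      ∃ b : M, (∀ c ∈ F, b ≤ c) ∧ ¬ b ≤ e) :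
    ∃ (X : Type) (_ : TopologicalSpace X) (φ : CompleteLatticeHom (TopologicalSpace.Opens X) M),
      Function.Surjective φ := by
  letI tM : TopologicalSpace M := lowTop M
  have hopen : ∀ b : M, IsOpen {x : M | ¬ b ≤ x} := by
    intro b
    exact TopologicalSpace.isOpen_generateFrom_of_mem ⟨b, rfl⟩
  let U : M → Opens M := fun b => ⟨{x | ¬ b ≤ x}, hopen b⟩
  have hUmem : ∀ (b x : M), x ∈ U b ↔ ¬ b ≤ x := fun b x => Iff.rfl
  let r : Opens M → M := fun V => sSup {b | U b ≤ V}
  have hgc : ∀ (b : M) (V : Opens M), U b ≤ V ↔ b ≤ r V := by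
    intro b V
    constructor
    · intro h
      exact le_sSup h
    · intro h x hx
      have h1 : ¬ r V ≤ x := fun h2 => hx (h.trans h2)
      have h2 : ∃ b' ∈ {b | U b ≤ V}, ¬ b' ≤ x := by
        by_contra hcon
        push Not at hcon
        exact h1 (sSup_le hcon)
      obtain ⟨b', hb', hb'x⟩ := h2
      exact hb' ((hUmem b' x).2 hb'x)
  have hGC : GaloisConnection U r := hgc
  have hUr : ∀ b : M, r (U b) = b := by
    intro b
    apply le_antisymm
    · apply sSup_le
      intro c hc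
      by_contra hcb
      obtain ⟨m, hm, hF⟩ := hW c b hcb
      have h1 : m ∈ U b := hc ((hUmem c m).2 hm)
      obtain ⟨b', hb', hb'2⟩ := hF {b} (Set.finite_singleton b) (by
        intro c' hc'
        rw [Set.mem_singleton_iff] at hc'
        rw [hc']
        exact (hUmem b m).1 h1)
      exact hb'2 (hb' b (Set.mem_singleton b))
    · exact (hgc b (U b)).1 le_rfl
  have hmono : Monotone r := hGC.monotone_u
  have hsup : ∀ 𝒱 : Set (Opens M), r (sSup 𝒱) = sSup (r '' 𝒱) := by
    intro 𝒱
    apply le_antisymm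
    · by_contra hcon
      obtain ⟨m, hm, hF⟩ := hW _ _ hcon
      have h1 : U (r (sSup 𝒱)) ≤ sSup 𝒱 := (hgc _ _).2 le_rfl
      have h2 : m ∈ sSup 𝒱 := h1 ((hUmem _ m).2 hm)
      rw [Opens.mem_sSup] at h2
      obtain ⟨V, hV, hmV⟩ := h2
      have hbasis := TopologicalSpace.isTopologicalBasis_of_subbasis
        (t := tM) (s := {S | ∃ b : M, S = {x | ¬ b ≤ x}}) rfl
      obtain ⟨S, hS, hmS, hSV⟩ := hbasis.exists_subset_of_mem_open (show m ∈ (V : Set M) from hmV) V.isOpen
      obtain ⟨f, ⟨hffin, hfs⟩, rfl⟩ := hS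
      have hch : ∀ T : Set M, ∃ b : M, T ∈ f → T = {x | ¬ b ≤ x} := by
        intro T
        by_cases hT : T ∈ f
        · obtain ⟨b, hb⟩ := hfs hT
          exact ⟨b, fun _ => hb⟩
        · exact ⟨⊥, fun h => absurd h hT⟩
      choose g hg using hch
      obtain ⟨b, hb1, hb2⟩ := hF (g '' f) (hffin.image g) (by
        rintro c ⟨T, hT, rfl⟩
        have : m ∈ T := hmS T hT
        rw [hg T hT] at this
        exact this)
      apply hb2
      have hUb : U b ≤ V := by
        intro x hx
        apply hSV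
        intro T hT
        rw [hg T hT]
        intro hle
        exact hx ((hb1 (g T) ⟨T, hT, rfl⟩).trans hle)
      exact ((hgc b V).1 hUb).trans (le_sSup ⟨V, hV, rfl⟩)
    · apply sSup_le
      rintro _ ⟨V, hV, rfl⟩
      exact hmono (le_sSup hV)
  have hinf : ∀ 𝒱 : Set (Opens M), r (sInf 𝒱) = sInf (r '' 𝒱) := by
    intro 𝒱
    rw [hGC.u_sInf, sInf_image]
  refine ⟨M, tM, { toFun := r, map_sInf' := hinf, map_sSup' := hsup }, ?_⟩
  intro b
  exact ⟨U b, hUr b⟩

/-- a nontrivial lattice order-isomorphic to a lattice of open sets has a prime element -/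
theorem prime_of_iso (M : Type) [CompleteLattice M] [Nontrivial M] (Y : Type) [TopologicalSpace Y]
    (ψ : M ≃o TopologicalSpace.Opens Y) :
    ∃ p : M, p ≠ ⊤ ∧ ∀ a b : M, (∀ c, c ≤ a → c ≤ b → c ≤ p) → a ≤ p ∨ b ≤ p := by
  have hY : Nonempty Y := by
    by_contra hne
    rw [not_nonempty_iff] at hne
    obtain ⟨a, b, hab⟩ := exists_pair_ne M
    apply hab
    apply ψ.injective
    ext x
    exact hne.elim x
  obtain ⟨z⟩ := hY
  let P : Opens Y := ⟨(closure {z})ᶜ, isClosed_closure.isOpen_compl⟩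
  have hzP : z ∉ P := by
    intro h
    exact h (subset_closure rfl)
  have hP : ∀ A : Opens Y, z ∉ A → A ≤ P := by
    intro A hA x hx
    intro hxc
    apply hA
    have : x ∈ closure {z} := hxc
    rw [mem_closure_iff] at this
    obtain ⟨y, hy, hyz⟩ := this A A.isOpen hx
    rw [Set.mem_singleton_iff] at hyz
    rw [hyz] at hy
    exact hy
  refine ⟨ψ.symm P, ?_, ?_⟩
  · intro h
    have h2 : P = ψ ⊤ := by rw [← h, ψ.apply_symm_apply]
    rw [map_top] at h2
    apply hzP
    rw [h2]
    trivial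
  · intro a b hab
    by_cases ha : z ∈ ψ a
    · right
      rw [ψ.le_symm_apply]
      apply hP
      intro hb
      have h3 := hab (ψ.symm (ψ a ⊓ ψ b)) (by rw [ψ.symm_apply_le]; exact inf_le_left)
        (by rw [ψ.symm_apply_le]; exact inf_le_right)
      rw [ψ.symm.le_iff_le] at h3
      exact hzP (h3 ⟨ha, hb⟩)
    · left
      rw [ψ.le_symm_apply]
      exact hP _ ha

end Pool.Agent.H109R2.TL
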