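import Pool.Agent.H109R2.TL.Hom

set_option autoImplicit false

namespace Pool.Agent.H109R2.TL

/-- entries: `(k, some n)` is the point `(k,n)`; `(k, none)` is the set of all points of layer `> k` -/
def L (a : ℕ × Option ℕ) : Set (ℕ × ℕ) :=
  match a.2 with
  | some n => {(a.1, n)}
  | none => {y | a.1 < y.1}

theorem L_some (k n : ℕ) : L (k, some n) = {(k, n)} := rfl
theorem L_none (k : ℕ) : L (k, none) = {y | k < y.1} := rfl

theorem L_nonempty (a : ℕ × Option ℕ) : (L a).Nonempty := by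
  obtain ⟨k, o⟩ := a
  cases o with
  | some n => exact ⟨(k, n), by rw [L_some]; rfl⟩
  | none => exact ⟨(k+1, 0), by rw [L_none]; exact Nat.lt_succ_self k⟩

/-- open sets of the layered space -/
def Op (V : Set (ℕ × ℕ)) : Prop := ∀ y ∈ V, ∀ k < y.1, {n | (k, n) ∉ V}.Finite

theorem Op_univ : Op Set.univ := by
  intro y _ k _
  simp

/-- the types -/
def X : Type := {τ : ℕ → ℕ × Option ℕ // ∀ N, ∃ i ≥ N, (τ i).2 = none}

def Box (w : ℕ → Set (ℕ × ℕ)) : Prop := (∀ i, Op (w i)) ∧ ∃ N, ∀ i ≥ N, w i = Set.univ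

def U (w : ℕ → Set (ℕ × ℕ)) : Set X := {τ | ∀ i, (L (τ.1 i) ∩ w i).Nonempty}

def good (S : Set X) : Prop := ∀ τ ∈ S, ∃ w, Box w ∧ τ ∈ U w ∧ U w ⊆ S

theorem good_U {w : ℕ → Set (ℕ × ℕ)} (hw : Box w) : good (U w) :=
  fun _ hτ => ⟨w, hw, hτ, subset_rfl⟩

theorem good_sUnion (𝒮 : Set (Set X)) (h : ∀ S ∈ 𝒮, good S) : good (⋃₀ 𝒮) := by
  rintro τ ⟨S, hS, hτ⟩
  obtain ⟨w, hw, h1, h2⟩ := h S hS τ hτ
  exact ⟨w, hw, h1, h2.trans (Set.subset_sUnion_of_mem hS)⟩

theorem Box_univ : Box (fun _ => Set.univ) := ⟨fun _ => Op_univ, 0, fun _ _ => rfl⟩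

theorem U_univ : U (fun _ => Set.univ) = Set.univ := by
  ext τ
  simp only [U, Set.mem_setOf_eq, Set.mem_univ, iff_true, Set.inter_univ]
  exact fun i => L_nonempty _

def M : Type := {S : Set X // good S}

instance : PartialOrder M := inferInstanceAs (PartialOrder {S : Set X // good S})

instance : SupSet M := ⟨fun 𝒮 => ⟨⋃₀ (Subtype.val '' 𝒮), good_sUnion _ (by
  rintro _ ⟨S, _, rfl⟩
  exact S.2)⟩⟩

theorem M_le (a b : M) : a ≤ b ↔ a.1 ⊆ b.1 := Iff.rfl

theorem M_sSup (𝒮 : Set M) : (sSup 𝒮).1 = ⋃₀ (Subtype.val '' 𝒮) := rfl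

instance : CompleteLattice M := completeLatticeOfSup M (by
  intro 𝒮
  constructor
  · intro S hS
    rw [M_le, M_sSup]
    exact Set.subset_sUnion_of_mem ⟨S, hS, rfl⟩
  · intro S hS
    rw [M_le, M_sSup]
    apply Set.sUnion_subset
    rintro _ ⟨T, hT, rfl⟩
    exact hS hT)

theorem M_sSup' (𝒮 : Set M) : (sSup 𝒮).1 = ⋃₀ (Subtype.val '' 𝒮) := rfl

theorem M_le' (a b : M) : a ≤ b ↔ a.1 ⊆ b.1 := Iff.rfl

theorem not_le_iff (a b : M) : ¬ a ≤ b ↔ ∃ τ ∈ a.1, τ ∉ b.1 := by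
  rw [M_le', Set.not_subset]

/-- raise an entry -/
def raise (a : ℕ × Option ℕ) : ℕ × Option ℕ :=
  match a.2 with
  | some n => (a.1, some n)
  | none => (a.1 + 1, none)

theorem raise_some (k n : ℕ) : raise (k, some n) = (k, some n) := rfl
theorem raise_none (k : ℕ) : raise (k, none) = (k + 1, none) := rfl

theorem raise_snd (a : ℕ × Option ℕ) (h : a.2 = none) : (raise a).2 = none := by
  obtain ⟨k, o⟩ := a
  change o = none at h
  subst h
  rfl

/-- finitely many open sets meeting `L (raise a)` have an intersection meeting `L a` -/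
theorem raise_fip (a : ℕ × Option ℕ) {ι : Type} (F : Set ι) (hF : F.Finite) (V : ι → Set (ℕ × ℕ))
    (hV : ∀ c ∈ F, Op (V c)) (hm : ∀ c ∈ F, (L (raise a) ∩ V c).Nonempty) :
    (L a ∩ ⋂ c ∈ F, V c).Nonempty := by
  obtain ⟨k, o⟩ := a
  cases o with
  | some n =>
    refine ⟨(k, n), by rw [L_some]; rfl, ?_⟩
    rw [Set.mem_iInter₂]
    intro c hc
    obtain ⟨y, hy1, hy2⟩ := hm c hc
    rw [raise_some, L_some, Set.mem_singleton_iff] at hy1
    rw [hy1] at hy2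
    exact hy2
  | none =>
    have h1 : ∀ c ∈ F, {n | (k + 1, n) ∉ V c}.Finite := by
      intro c hc
      obtain ⟨y, hy1, hy2⟩ := hm c hc
      rw [raise_none, L_none] at hy1
      exact hV c hc y hy2 (k + 1) hy1
    have h2 : (⋃ c ∈ F, {n | (k + 1, n) ∉ V c}).Finite := hF.biUnion h1
    obtain ⟨n, hn⟩ := h2.infinite_compl.nonempty
    refine ⟨(k + 1, n), by rw [L_none]; exact Nat.lt_succ_self k, ?_⟩
    rw [Set.mem_iInter₂]
    intro c hc
    by_contra hcon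
    apply hn
    rw [Set.mem_iUnion₂]
    exact ⟨c, hc, hcon⟩

theorem Op_biInter {ι : Type} (F : Set ι) (hF : F.Finite) (V : ι → Set (ℕ × ℕ))
    (hV : ∀ c ∈ F, Op (V c)) : Op (⋂ c ∈ F, V c) := by
  intro y hy k hk
  rw [Set.mem_iInter₂] at hy
  have h2 : (⋃ c ∈ F, {n | (k, n) ∉ V c}).Finite := hF.biUnion (fun c hc => hV c hc y (hy c hc) k hk)
  apply h2.subset
  intro n hn
  simp only [Set.mem_setOf_eq, Set.mem_iInter, not_forall] at hn
  obtain ⟨c, hc, hn⟩ := hn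
  rw [Set.mem_iUnion₂]
  exact ⟨c, hc, hn⟩

theorem Box_biInter {ι : Type} (F : Set ι) (hF : F.Finite) (w : ι → ℕ → Set (ℕ × ℕ))
    (hw : ∀ c ∈ F, Box (w c)) : Box (fun i => ⋂ c ∈ F, w c i) := by
  constructor
  · intro i
    exact Op_biInter F hF (fun c => w c i) (fun c hc => (hw c hc).1 i)
  · have h1 : ∀ c, ∃ N, c ∈ F → ∀ i ≥ N, w c i = Set.univ := by
      intro c
      by_cases hc : c ∈ F
      · obtain ⟨N, hN⟩ := (hw c hc).2
        exact ⟨N, fun _ => hN⟩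
      · exact ⟨0, fun h => absurd h hc⟩
    choose N hN using h1
    obtain ⟨B, hB⟩ := (hF.image N).bddAbove
    refine ⟨B, fun i hi => ?_⟩
    rw [Set.eq_univ_iff_forall]
    intro y
    rw [Set.mem_iInter₂]
    intro c hc
    rw [hN c hc i ((hB ⟨c, hc, rfl⟩).trans hi)]
    trivial

theorem M_W : ∀ d e : M, ¬ d ≤ e → ∃ m : M, ¬ d ≤ m ∧ ∀ F : Set M, F.Finite →
    (∀ c ∈ F, ¬ c ≤ m) → ∃ b : M, (∀ c ∈ F, b ≤ c) ∧ ¬ b ≤ e := by
  intro d e hde
  rw [not_le_iff] at hde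
  obtain ⟨τ, hτd, hτe⟩ := hde
  obtain ⟨w0, hw0, hτw0, hw0d⟩ := d.2 τ hτd
  obtain ⟨N0, hN0⟩ := hw0.2
  have hch : ∀ i, ∃ y : ℕ × ℕ, y ∈ L (τ.1 i) ∩ w0 i := fun i => hτw0 i
  choose y hy using hch
  -- replace the first entries by constants
  let t1 : ℕ → ℕ × Option ℕ := fun i => if i < N0 then ((y i).1, some (y i).2) else τ.1 i
  let t2 : ℕ → ℕ × Option ℕ := fun i => raise (t1 i)
  have ht1 : ∀ N, ∃ i ≥ N, (t1 i).2 = none := by
    intro N
    obtain ⟨i, hi, hi2⟩ := τ.2 (max N N0)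
    refine ⟨i, (le_max_left _ _).trans hi, ?_⟩
    have : ¬ i < N0 := not_lt.2 ((le_max_right _ _).trans hi)
    simp only [t1, this, if_false]
    exact hi2
  have ht2 : ∀ N, ∃ i ≥ N, (t2 i).2 = none := by
    intro N
    obtain ⟨i, hi, hi2⟩ := ht1 N
    exact ⟨i, hi, raise_snd _ hi2⟩
  let τ1 : X := ⟨t1, ht1⟩
  let τ2 : X := ⟨t2, ht2⟩
  have hsub : ∀ i, L (t1 i) ⊆ L (τ.1 i) := by
    intro i
    by_cases h : i < N0
    · simp only [t1, h, if_true, L_some]
      rw [Set.singleton_subset_iff]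
      exact (hy i).1
    · simp only [t1, h, if_false]
      exact subset_rfl
  have hτ1e : τ1 ∉ e.1 := by
    intro h
    obtain ⟨w', hw', h1, h2⟩ := e.2 τ1 h
    apply hτe
    apply h2
    intro i
    exact (h1 i).mono (Set.inter_subset_inter_left _ (hsub i))
  have hτ2d : τ2 ∈ d.1 := by
    apply hw0d
    intro i
    by_cases h : i < N0
    · refine ⟨y i, ?_, (hy i).2⟩
      have : t2 i = ((y i).1, some (y i).2) := by
        simp only [t2, t1, h, if_true, raise_some]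
      change y i ∈ L (t2 i)
      rw [this, L_some]
      rfl
    · rw [hN0 i (not_lt.1 h), Set.inter_univ]
      exact L_nonempty _
  let m : M := sSup {c | τ2 ∉ c.1}
  have hm : ∀ c : M, ¬ c ≤ m → τ2 ∈ c.1 := by
    intro c hc
    by_contra hcon
    exact hc (le_sSup hcon)
  have hτ2m : τ2 ∉ m.1 := by
    intro h
    change τ2 ∈ (sSup {c : M | τ2 ∉ c.1}).1 at h
    rw [M_sSup'] at h
    obtain ⟨_, ⟨c, hc, rfl⟩, h2⟩ := h
    exact hc h2
  refine ⟨m, (not_le_iff _ _).2 ⟨τ2, hτ2d, hτ2m⟩, ?_⟩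
  intro F hF hFm
  have hch2 : ∀ c : M, ∃ w, c ∈ F → Box w ∧ τ2 ∈ U w ∧ U w ⊆ c.1 := by
    intro c
    by_cases hc : c ∈ F
    · obtain ⟨w, hw⟩ := c.2 τ2 (hm c (hFm c hc))
      exact ⟨w, fun _ => hw⟩
    · exact ⟨fun _ => Set.univ, fun h => absurd h hc⟩
  choose w hw using hch2
  have hB : Box (fun i => ⋂ c ∈ F, w c i) := Box_biInter F hF w (fun c hc => (hw c hc).1)
  refine ⟨⟨U (fun i => ⋂ c ∈ F, w c i), good_U hB⟩, ?_, ?_⟩
  · intro c hc
    rw [M_le']
    refine Set.Subset.trans ?_ (hw c hc).2.2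
    intro σ hσ i
    refine (hσ i).mono (Set.inter_subset_inter_right _ ?_)
    exact Set.biInter_subset_of_mem hc
  · rw [not_le_iff]
    refine ⟨τ1, ?_, hτ1e⟩
    intro i
    exact raise_fip (t1 i) F hF (fun c => w c i) (fun c hc => (hw c hc).1.1 i)
      (fun c hc => (hw c hc).2.1 i)

theorem M_top (p : M) (hp : p ≠ ⊤) : ∃ τ, τ ∉ p.1 := by
  by_contra hcon
  push Not at hcon
  apply hp
  rw [eq_top_iff, M_le']
  intro τ _
  exact hcon τ

instance : Nonempty X := ⟨⟨fun _ => (0, none), fun N => ⟨N, le_rfl, rfl⟩⟩⟩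

instance : Nontrivial M := by
  refine ⟨⟨⟨U (fun _ => Set.univ), good_U Box_univ⟩, ⟨∅, fun τ h => absurd h (Set.notMem_empty τ)⟩, ?_⟩⟩
  intro h
  have h2 : U (fun _ => Set.univ) = ∅ := congrArg Subtype.val h
  rw [U_univ] at h2
  exact Set.univ_nonempty.ne_empty h2

theorem M_noprime (p : M) (hp : p ≠ ⊤)
    (hprime : ∀ a b : M, (∀ c, c ≤ a → c ≤ b → c ≤ p) → a ≤ p ∨ b ≤ p) : False := by
  obtain ⟨τ, hτ⟩ := M_top p hp
  obtain ⟨i, _, hi⟩ := τ.2 0
  let A : Set (ℕ × ℕ) := {y | ∃ σ : X, σ ∉ p.1 ∧ y ∈ L (σ.1 i)}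
  have hAne : (Prod.fst '' A).Nonempty := by
    obtain ⟨y, hy⟩ := L_nonempty (τ.1 i)
    exact ⟨y.1, y, ⟨τ, hτ, hy⟩, rfl⟩
  obtain ⟨y, hyA, hymin⟩ : ∃ y ∈ A, ∀ z ∈ A, y.1 ≤ z.1 := by
    obtain ⟨y, hyA, hy⟩ := Nat.sInf_mem hAne
    refine ⟨y, hyA, fun z hz => ?_⟩
    rw [hy]
    exact Nat.sInf_le ⟨z, hz, rfl⟩
  -- a second element
  obtain ⟨y', hy'A, hne⟩ : ∃ y' ∈ A, y' ≠ y := by
    have hL : ∀ n, ((τ.1 i).1 + 1, n) ∈ L (τ.1 i) := by
      intro n
      have : τ.1 i = ((τ.1 i).1, none) := Prod.ext rfl hi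
      rw [this, L_none]
      exact Nat.lt_succ_self _
    by_cases h : ((τ.1 i).1 + 1, 0) = y
    · refine ⟨((τ.1 i).1 + 1, 1), ⟨τ, hτ, hL 1⟩, ?_⟩
      rw [← h]
      intro h2
      have := congrArg Prod.snd h2
      simp at this
    · exact ⟨((τ.1 i).1 + 1, 0), ⟨τ, hτ, hL 0⟩, h⟩
  let V : Set (ℕ × ℕ) := {v | v = y ∨ v.1 < y.1}
  let V' : Set (ℕ × ℕ) := {v | v ≠ y}
  have hV : Op V := by
    intro v hv k hk
    have hk2 : k < y.1 := by
      rcases hv with rfl | hv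
      · exact hk
      · exact hk.trans hv
    have : {n | (k, n) ∉ V} = ∅ := by
      ext n
      simp only [Set.mem_setOf_eq, Set.mem_empty_iff_false, iff_false, not_not]
      exact Or.inr hk2
    rw [this]
    exact Set.finite_empty
  have hV' : Op V' := by
    intro v hv k hk
    apply (Set.finite_singleton y.2).subset
    intro n hn
    have h2 : (k, n) = y := by
      by_contra hcon
      exact hn hcon
    rw [Set.mem_singleton_iff, ← h2]
  have hbox : ∀ W : Set (ℕ × ℕ), Op W → Box (fun j => if j = i then W else Set.univ) := by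
    intro W hW
    constructor
    · intro j
      dsimp only
      split_ifs
      · exact hW
      · exact Op_univ
    · refine ⟨i + 1, fun j hj => ?_⟩
      have : j ≠ i := by omega
      simp only [this, if_false]
  have hmemU : ∀ (W : Set (ℕ × ℕ)) (σ : X), σ ∈ U (fun j => if j = i then W else Set.univ) ↔
      (L (σ.1 i) ∩ W).Nonempty := by
    intro W σ
    constructor
    · intro h
      have := h i
      simpa using this
    · intro h j
      by_cases hj : j = i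
      · subst hj
        simpa using h
      · simp only [hj, if_false, Set.inter_univ]
        exact L_nonempty _
  let a : M := ⟨_, good_U (hbox V hV)⟩
  let b : M := ⟨_, good_U (hbox V' hV')⟩
  have ha : ∀ σ : X, σ ∈ a.1 ↔ (L (σ.1 i) ∩ V).Nonempty := hmemU V
  have hb : ∀ σ : X, σ ∈ b.1 ↔ (L (σ.1 i) ∩ V').Nonempty := hmemU V'
  have key : ∀ c : M, c ≤ a → c ≤ b → c ≤ p := by
    intro c hca hcb
    rw [M_le'] at hca hcb ⊢
    intro σ hσ
    by_contra hσp
    obtain ⟨w, hw, hσw, hwc⟩ := c.2 σ hσ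
    obtain ⟨v, hvL, hvw⟩ := hσw i
    have hvA : v ∈ A := ⟨σ, hσp, hvL⟩
    let σ' : X := ⟨Function.update σ.1 i (v.1, some v.2), by
      intro N
      obtain ⟨j, hj, hj2⟩ := σ.2 (max N (i + 1))
      refine ⟨j, (le_max_left _ _).trans hj, ?_⟩
      have : j ≠ i := by
        have := (le_max_right N (i + 1)).trans hj
        omega
      rw [Function.update_of_ne this]
      exact hj2⟩
    have hσ'i : L (σ'.1 i) = {v} := by
      change L (Function.update σ.1 i (v.1, some v.2) i) = {v}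
      rw [Function.update_self, L_some]
    have hσ'w : σ' ∈ U w := by
      intro j
      by_cases hj : j = i
      · subst hj
        rw [hσ'i]
        exact ⟨v, rfl, hvw⟩
      · have : σ'.1 j = σ.1 j := Function.update_of_ne hj _ _
        rw [this]
        exact hσw j
    have h1 := (ha σ').1 (hca (hwc hσ'w))
    have h2 := (hb σ').1 (hcb (hwc hσ'w))
    rw [hσ'i] at h1 h2
    obtain ⟨v1, hv1, hv1V⟩ := h1
    obtain ⟨v2, hv2, hv2V⟩ := h2
    rw [Set.mem_singleton_iff] at hv1 hv2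
    rw [hv1] at hv1V
    rw [hv2] at hv2V
    rcases hv1V with h | h
    · exact hv2V h
    · exact absurd (hymin v hvA) (not_le.2 h)
  rcases hprime a b key with h | h
  · obtain ⟨σ, hσp, hyσ⟩ := hyA
    apply hσp
    rw [M_le'] at h
    apply h
    rw [ha]
    exact ⟨y, hyσ, Or.inl rfl⟩
  · obtain ⟨σ, hσp, hyσ⟩ := hy'A
    apply hσp
    rw [M_le'] at h
    apply h
    rw [hb]
    exact ⟨y', hyσ, hne⟩

end Pool.Agent.H109R2.TL
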